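import Mathlib

/-!
# Curse of dimensionality for `L_1`-type integration with nonnegative weights

The case `p = 1`: every nonnegative quadrature formula with `N` nodes whose worst case error on the
unit ball of `F_{d,∞}` is at most `ε 2^{-d}` satisfies `(1-ε)² (16/15)^d ≤ (1+ε) N`.

The key inequality: if `P, h_1, …, h_N ≥ 0`, then `|P - ∑ h_k| ≥ P - ∑ √(P h_k)`.
-/

set_option autoImplicit false

open MeasureTheory Set Filter
open scoped ENNReal

namespace Pool.Agent.Results.MP_2335a4_an.Curse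

/-! ## Definitions -/

/-- The unit ball of `F_{d,∞}`: the functions `f` on `[0,1]^d` with
`f(x) = (-1)^d ∫_{[x,1]} g(t) dt` where `|g| ≤ 1` almost everywhere, `g` being the mixed derivative
`∂^d f / ∂x_1 ⋯ ∂x_d` (such an `f` vanishes whenever some coordinate of `x` equals `1`). -/
def Ball (d : ℕ) : Set ((Fin d → ℝ) → ℝ) :=
  {f | ∃ g : (Fin d → ℝ) → ℝ,
    AEStronglyMeasurable g (volume.restrict (Icc (0 : Fin d → ℝ) 1)) ∧
    (∀ᵐ t ∂(volume.restrict (Icc (0 : Fin d → ℝ) 1)), |g t| ≤ 1) ∧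
    ∀ x ∈ Icc (0 : Fin d → ℝ) 1, f x = (-1) ^ d * ∫ t in Icc x 1, g t}

/-- The worst case error `e(A)` on the unit ball of `F_{d,∞}` of the quadrature formula
`A(f) = ∑ a_k f(t_k)`. -/
noncomputable def err {N d : ℕ} (t : Fin N → Fin d → ℝ) (a : Fin N → ℝ) : ℝ≥0∞ :=
  ⨆ f ∈ Ball d, ENNReal.ofReal |(∫ x in Icc (0 : Fin d → ℝ) 1, f x) - ∑ k, a k * f (t k)|

/-- `e⁺(N,d)`: the infimum of `e(A)` over the nonnegative formulas with `N` nodes in `[0,1)^d`. -/
noncomputable def ePlus (N d : ℕ) : ℝ≥0∞ :=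
  ⨅ (t : Fin N → Fin d → ℝ) (a : Fin N → ℝ) (_ : ∀ k i, t k i ∈ Ico (0 : ℝ) 1)
    (_ : ∀ k, 0 ≤ a k), err t a

/-- `N⁺(ε,d)`: the least `N` with `e⁺(N,d) ≤ ε 2^{-d}` (`⊤` if there were no such `N`). -/
noncomputable def NPlus (ε : ℝ) (d : ℕ) : ℕ∞ :=
  ⨅ (N : ℕ) (_ : ePlus N d ≤ ENNReal.ofReal (ε * (1 / 2) ^ d)), (N : ℕ∞)

/-- The generalised `L_1`-discrepancy `∫ |∑ a_k 1_{[0,x)}(t_k) - x_1 ⋯ x_d| dx`. -/
noncomputable def genDisc {N d : ℕ} (t : Fin N → Fin d → ℝ) (a : Fin N → ℝ) : ℝ :=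
  ∫ x in Icc (0 : Fin d → ℝ) 1,
    |(∑ k, a k * Set.indicator {y : Fin d → ℝ | ∀ i, t k i < y i} (fun _ => (1 : ℝ)) x) -
      ∏ i, x i|

/-! ## The cube -/

instance finite_vol (d : ℕ) :
    IsFiniteMeasure ((volume : Measure (Fin d → ℝ)).restrict (Icc 0 1)) := by
  refine ⟨?_⟩
  rw [Measure.restrict_apply MeasurableSet.univ, univ_inter]
  exact isCompact_Icc.measure_lt_top

lemma vol_eq (d : ℕ) : (volume : Measure (Fin d → ℝ)).restrict (Icc 0 1) =
    Measure.pi (fun _ : Fin d => (volume : Measure ℝ).restrict (Icc 0 1)) := by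
  rw [← Measure.restrict_pi_pi, volume_pi]
  congr 1
  rw [← Set.pi_univ_Icc]
  rfl

lemma prod_mem {d : ℕ} {t : Fin d → ℝ} (ht : t ∈ Icc (0 : Fin d → ℝ) 1) :
    0 ≤ ∏ i, t i ∧ ∏ i, t i ≤ 1 :=
  ⟨Finset.prod_nonneg fun i _ => ht.1 i, Finset.prod_le_one (fun i _ => ht.1 i) fun i _ => ht.2 i⟩

/-- The indicator of `{y : c ≤ y}`. -/
noncomputable def ind {d : ℕ} (c y : Fin d → ℝ) : ℝ :=
  Set.indicator (Ici c) (fun _ => (1 : ℝ)) y

lemma ind_nonneg {d : ℕ} (c y : Fin d → ℝ) : 0 ≤ ind c y :=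
  Set.indicator_nonneg (fun _ _ => zero_le_one) y

lemma ind_le_one {d : ℕ} (c y : Fin d → ℝ) : ind c y ≤ 1 := by
  classical
  unfold ind
  rw [Set.indicator_apply]
  split_ifs <;> norm_num

lemma ind_meas {d : ℕ} (c : Fin d → ℝ) : Measurable (ind c) :=
  Measurable.indicator measurable_const measurableSet_Ici

/-- The signed discrepancy function (closed version). -/
noncomputable def D {N d : ℕ} (t : Fin N → Fin d → ℝ) (a : Fin N → ℝ) (x : Fin d → ℝ) : ℝ :=
  (∏ i, x i) - ∑ k, a k * ind (t k) x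

lemma D_meas {N d : ℕ} (t : Fin N → Fin d → ℝ) (a : Fin N → ℝ) : Measurable (D t a) := by
  unfold D
  refine Measurable.sub (Finset.measurable_prod _ fun i _ => measurable_pi_apply i) ?_
  exact Finset.measurable_sum _ fun k _ => (ind_meas _).const_mul _

lemma P_int (d : ℕ) : Integrable (fun x : Fin d → ℝ => ∏ i, x i)
    (volume.restrict (Icc (0 : Fin d → ℝ) 1)) := by
  refine Integrable.of_bound (C := 1)
    (Finset.measurable_prod _ fun i _ => measurable_pi_apply i).aestronglyMeasurable ?_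
  refine (ae_restrict_mem measurableSet_Icc).mono fun x hx => ?_
  obtain ⟨h0, h1⟩ := prod_mem hx
  rw [Real.norm_eq_abs, abs_of_nonneg h0]
  exact h1

lemma ind_int {d : ℕ} (c : Fin d → ℝ) : Integrable (ind c)
    (volume.restrict (Icc (0 : Fin d → ℝ) 1)) := by
  refine Integrable.of_bound (C := 1) (ind_meas c).aestronglyMeasurable ?_
  refine Eventually.of_forall fun x => ?_
  rw [Real.norm_eq_abs, abs_of_nonneg (ind_nonneg _ _)]
  exact ind_le_one _ _

lemma D_int {N d : ℕ} (t : Fin N → Fin d → ℝ) (a : Fin N → ℝ) : Integrable (D t a)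
    (volume.restrict (Icc (0 : Fin d → ℝ) 1)) := by
  unfold D
  exact (P_int d).sub (integrable_finsetSum _ fun k _ => (ind_int _).const_mul _)

/-! ## The representation of the error -/

lemma Icc_inter_Ici {d : ℕ} {c : Fin d → ℝ} (hc : c ∈ Icc (0 : Fin d → ℝ) 1) :
    Icc (0 : Fin d → ℝ) 1 ∩ Ici c = Icc c 1 := by
  ext y
  simp only [mem_inter_iff, mem_Icc, mem_Ici]
  exact ⟨fun h => ⟨h.2, h.1.2⟩, fun h => ⟨⟨hc.1.trans h.1, h.2⟩, h.1⟩⟩

lemma int_g {d : ℕ} {g : (Fin d → ℝ) → ℝ} {c : Fin d → ℝ} (hc : c ∈ Icc (0 : Fin d → ℝ) 1) :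
    ∫ t in Icc c 1, g t = ∫ t in Icc (0 : Fin d → ℝ) 1, ind c t * g t := by
  classical
  have h : ∀ t, ind c t * g t = (Ici c).indicator g t := by
    intro t
    unfold ind
    rw [Set.indicator_apply, Set.indicator_apply]
    split_ifs <;> simp
  simp_rw [h]
  rw [setIntegral_indicator measurableSet_Ici, Icc_inter_Ici hc]

lemma int_ind_left {d : ℕ} {t : Fin d → ℝ} (ht : t ∈ Icc (0 : Fin d → ℝ) 1) :
    ∫ x in Icc (0 : Fin d → ℝ) 1, ind x t = ∏ i, t i := by
  classical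
  have h : ∀ x, ind x t = (Iic t).indicator (fun _ => (1 : ℝ)) x := by
    intro x
    unfold ind
    rw [Set.indicator_apply, Set.indicator_apply]
    rfl
  simp_rw [h]
  rw [setIntegral_indicator measurableSet_Iic]
  have e : Icc (0 : Fin d → ℝ) 1 ∩ Iic t = Icc 0 t := by
    ext y
    simp only [mem_inter_iff, mem_Icc, mem_Iic]
    exact ⟨fun h => ⟨h.1.1, h.2⟩, fun h => ⟨⟨h.1, h.2.trans ht.2⟩, h.2⟩⟩
  rw [e, setIntegral_const, smul_eq_mul, mul_one, Measure.real, Real.volume_Icc_pi_toReal ht.1]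
  simp

lemma int_prim {d : ℕ} {g : (Fin d → ℝ) → ℝ}
    (hg : AEStronglyMeasurable g (volume.restrict (Icc (0 : Fin d → ℝ) 1)))
    (hg1 : ∀ᵐ t ∂(volume.restrict (Icc (0 : Fin d → ℝ) 1)), |g t| ≤ 1) :
    ∫ x in Icc (0 : Fin d → ℝ) 1, ∫ t in Icc x 1, g t =
      ∫ t in Icc (0 : Fin d → ℝ) 1, (∏ i, t i) * g t := by
  have hgi : Integrable g (volume.restrict (Icc (0 : Fin d → ℝ) 1)) :=
    Integrable.of_bound (C := 1) hg hg1
  have h1 : ∫ x in Icc (0 : Fin d → ℝ) 1, ∫ t in Icc x 1, g t =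
      ∫ x in Icc (0 : Fin d → ℝ) 1, ∫ t in Icc (0 : Fin d → ℝ) 1, ind x t * g t :=
    setIntegral_congr_fun measurableSet_Icc fun x hx => int_g hx
  rw [h1, integral_integral_swap]
  · refine setIntegral_congr_fun measurableSet_Icc fun t ht => ?_
    rw [integral_mul_const, int_ind_left ht]
  · have h2 := hgi.comp_snd (volume.restrict (Icc (0 : Fin d → ℝ) 1))
    have hm : MeasurableSet {p : (Fin d → ℝ) × (Fin d → ℝ) | p.1 ≤ p.2} :=
      measurableSet_le measurable_fst measurable_snd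
    refine (h2.indicator hm).congr (Eventually.of_forall fun p => ?_)
    simp only [Function.uncurry, ind]
    by_cases hp : p.1 ≤ p.2
    · rw [Set.indicator_of_mem (by exact hp), Set.indicator_of_mem (by exact hp), one_mul]
    · rw [Set.indicator_of_notMem (by exact hp), Set.indicator_of_notMem (by exact hp), zero_mul]

lemma rep {N d : ℕ} {t : Fin N → Fin d → ℝ} {a : Fin N → ℝ}
    (ht : ∀ k i, t k i ∈ Ico (0 : ℝ) 1) {f g : (Fin d → ℝ) → ℝ}
    (hg : AEStronglyMeasurable g (volume.restrict (Icc (0 : Fin d → ℝ) 1)))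
    (hg1 : ∀ᵐ t ∂(volume.restrict (Icc (0 : Fin d → ℝ) 1)), |g t| ≤ 1)
    (hf : ∀ x ∈ Icc (0 : Fin d → ℝ) 1, f x = (-1) ^ d * ∫ t in Icc x 1, g t) :
    (∫ x in Icc (0 : Fin d → ℝ) 1, f x) - ∑ k, a k * f (t k) =
      (-1) ^ d * ∫ x in Icc (0 : Fin d → ℝ) 1, D t a x * g x := by
  have hgi : Integrable g (volume.restrict (Icc (0 : Fin d → ℝ) 1)) :=
    Integrable.of_bound (C := 1) hg hg1
  have htk : ∀ k, t k ∈ Icc (0 : Fin d → ℝ) 1 := fun k =>
    ⟨fun i => (ht k i).1, fun i => (ht k i).2.le⟩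
  have h1 : ∫ x in Icc (0 : Fin d → ℝ) 1, f x =
      (-1) ^ d * ∫ x in Icc (0 : Fin d → ℝ) 1, (∏ i, x i) * g x := by
    rw [← int_prim hg hg1, ← integral_const_mul]
    exact setIntegral_congr_fun measurableSet_Icc hf
  have h2 : ∀ k, f (t k) = (-1) ^ d * ∫ x in Icc (0 : Fin d → ℝ) 1, ind (t k) x * g x := by
    intro k
    rw [hf _ (htk k), int_g (htk k)]
  have hPg : Integrable (fun x => (∏ i, x i) * g x) (volume.restrict (Icc (0 : Fin d → ℝ) 1)) := by
    refine Integrable.of_bound (C := 1) ?_ ?_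
    · exact (Finset.measurable_prod _ fun i _ => measurable_pi_apply i).aestronglyMeasurable.mul hg
    · filter_upwards [hg1, ae_restrict_mem measurableSet_Icc] with x hx1 hx2
      obtain ⟨h0, h1⟩ := prod_mem hx2
      rw [Real.norm_eq_abs, abs_mul, abs_of_nonneg h0]
      exact mul_le_one₀ h1 (abs_nonneg _) hx1
  have hig : ∀ k, Integrable (fun x => ind (t k) x * g x)
      (volume.restrict (Icc (0 : Fin d → ℝ) 1)) := by
    intro k
    refine Integrable.of_bound (C := 1) ?_ ?_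
    · exact (ind_meas _).aestronglyMeasurable.mul hg
    · filter_upwards [hg1] with x hx1
      rw [Real.norm_eq_abs, abs_mul, abs_of_nonneg (ind_nonneg _ _)]
      exact mul_le_one₀ (ind_le_one _ _) (abs_nonneg _) hx1
  have h3 : ∫ x in Icc (0 : Fin d → ℝ) 1, D t a x * g x =
      (∫ x in Icc (0 : Fin d → ℝ) 1, (∏ i, x i) * g x) -
        ∑ k, a k * ∫ x in Icc (0 : Fin d → ℝ) 1, ind (t k) x * g x := by
    have e : ∀ x, D t a x * g x = (∏ i, x i) * g x - ∑ k, a k * (ind (t k) x * g x) := by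
      intro x
      unfold D
      rw [sub_mul, Finset.sum_mul]
      congr 1
      exact Finset.sum_congr rfl fun k _ => by ring
    simp_rw [e]
    rw [integral_sub hPg (integrable_finsetSum _ fun k _ => (hig k).const_mul _),
      integral_finsetSum _ fun k _ => (hig k).const_mul _]
    simp_rw [integral_const_mul]
  rw [h3, h1]
  simp_rw [h2]
  rw [mul_sub, Finset.mul_sum]
  congr 1
  exact Finset.sum_congr rfl fun k _ => by ring

/-- The worst case error is the `L_1`-norm of the discrepancy function. -/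
lemma err_eq {N d : ℕ} {t : Fin N → Fin d → ℝ} {a : Fin N → ℝ}
    (ht : ∀ k i, t k i ∈ Ico (0 : ℝ) 1) :
    err t a = ENNReal.ofReal (∫ x in Icc (0 : Fin d → ℝ) 1, |D t a x|) := by
  have habs : ∀ r : ℝ, |(-1) ^ d * r| = |r| := by
    intro r
    rw [abs_mul, abs_pow, abs_neg, abs_one, one_pow, one_mul]
  apply le_antisymm
  · unfold err
    refine iSup₂_le fun f hf => ?_
    obtain ⟨g, hg, hg1, hfg⟩ := hf
    refine ENNReal.ofReal_le_ofReal ?_
    rw [rep ht hg hg1 hfg, habs]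
    refine (abs_integral_le_integral_abs).trans ?_
    refine integral_mono_ae ?_ (D_int t a).abs ?_
    · refine Integrable.abs ?_
      refine Integrable.mono (D_int t a) ((D_meas t a).aestronglyMeasurable.mul hg) ?_
      filter_upwards [hg1] with x hx
      rw [norm_mul, Real.norm_eq_abs (g x)]
      exact mul_le_of_le_one_right (norm_nonneg _) hx
    · filter_upwards [hg1] with x hx
      rw [abs_mul]
      exact mul_le_of_le_one_right (abs_nonneg _) hx
  · set g : (Fin d → ℝ) → ℝ := fun x => SignType.sign (D t a x) with hgdef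
    have hgm : Measurable g := by
      have : g = fun x => if 0 < D t a x then (1 : ℝ) else if D t a x < 0 then -1 else 0 := by
        funext x
        simp only [hgdef, sign_apply]
        split_ifs <;> simp
      rw [this]
      refine Measurable.ite (measurableSet_lt measurable_const (D_meas t a)) measurable_const ?_
      exact Measurable.ite (measurableSet_lt (D_meas t a) measurable_const) measurable_const
        measurable_const
    have hg1 : ∀ x, |g x| ≤ 1 := by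
      intro x
      simp only [hgdef, sign_apply]
      split_ifs <;> simp
    have hgD : ∀ x, D t a x * g x = |D t a x| := by
      intro x
      simp only [hgdef]
      exact self_mul_sign _
    have hmem : (fun x => (-1) ^ d * ∫ t in Icc x 1, g t) ∈ Ball d :=
      ⟨g, hgm.aestronglyMeasurable, Eventually.of_forall hg1, fun x _ => rfl⟩
    unfold err
    refine le_iSup₂_of_le _ hmem ?_
    refine ENNReal.ofReal_le_ofReal ?_
    rw [rep ht hgm.aestronglyMeasurable (Eventually.of_forall hg1) (fun x _ => rfl), habs]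
    simp_rw [hgD]
    exact le_abs_self _

lemma ae_ind {d : ℕ} (c : Fin d → ℝ) :
    ∀ᵐ x ∂(volume.restrict (Icc (0 : Fin d → ℝ) 1)),
      Set.indicator {y : Fin d → ℝ | ∀ i, c i < y i} (fun _ => (1 : ℝ)) x = ind c x := by
  classical
  refine ae_restrict_of_ae ?_
  have h : ∀ᵐ x ∂(volume : Measure (Fin d → ℝ)), ∀ i, x i ≠ c i := by
    rw [ae_all_iff]
    intro i
    exact Measure.ae_eval_ne (μ := fun _ : Fin d => (volume : Measure ℝ)) i (c i)
  filter_upwards [h] with x hx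
  unfold ind
  rw [Set.indicator_apply, Set.indicator_apply]
  have : (x ∈ {y : Fin d → ℝ | ∀ i, c i < y i}) ↔ x ∈ Ici c :=
    ⟨fun h i => (h i).le, fun h i => lt_of_le_of_ne (h i) (hx i).symm⟩
  simp only [this]

lemma genDisc_eq {N d : ℕ} (t : Fin N → Fin d → ℝ) (a : Fin N → ℝ) :
    genDisc t a = ∫ x in Icc (0 : Fin d → ℝ) 1, |D t a x| := by
  unfold genDisc
  refine integral_congr_ae ?_
  have h : ∀ᵐ x ∂(volume.restrict (Icc (0 : Fin d → ℝ) 1)), ∀ k : Fin N,
      Set.indicator {y : Fin d → ℝ | ∀ i, t k i < y i} (fun _ => (1 : ℝ)) x = ind (t k) x := by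
    rw [ae_all_iff]
    exact fun k => ae_ind (t k)
  filter_upwards [h] with x hx
  simp_rw [hx]
  rw [abs_sub_comm]
  rfl

/-! ## The lower bound -/

/-- The key inequality. -/
lemma key {N : ℕ} {P : ℝ} (hP : 0 ≤ P) (h : Fin N → ℝ) (hh : ∀ k, 0 ≤ h k) :
    P - ∑ k, √(h k) * √P ≤ |P - ∑ k, h k| := by
  have hs : ∀ k, 0 ≤ √(h k) * √P := fun k => by positivity
  by_cases hc : ∃ k, P ≤ h k
  · obtain ⟨k, hk⟩ := hc
    have h1 : P ≤ √(h k) * √P := by
      calc P = √P * √P := (Real.mul_self_sqrt hP).symm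
        _ ≤ √(h k) * √P := mul_le_mul_of_nonneg_right (Real.sqrt_le_sqrt hk) (Real.sqrt_nonneg _)
    have h2 : √(h k) * √P ≤ ∑ k, √(h k) * √P :=
      Finset.single_le_sum (f := fun k => √(h k) * √P) (fun k _ => hs k) (Finset.mem_univ k)
    linarith [abs_nonneg (P - ∑ k, h k)]
  · push Not at hc
    have h1 : ∑ k, h k ≤ ∑ k, √(h k) * √P := by
      refine Finset.sum_le_sum fun k _ => ?_
      calc h k = √(h k) * √(h k) := (Real.mul_self_sqrt (hh k)).symm
        _ ≤ √(h k) * √P :=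
          mul_le_mul_of_nonneg_left (Real.sqrt_le_sqrt (hc k).le) (Real.sqrt_nonneg _)
    linarith [le_abs_self (P - ∑ k, h k)]

/-- The one-dimensional inequality. -/
lemma one_dim {t : ℝ} (h0 : 0 ≤ t) (h1 : t < 1) :
    2 * (2 / 3 * (1 - t * √t)) ^ 2 ≤ 15 / 16 * (1 - t) := by
  set s := √t with hs
  have hs0 : 0 ≤ s := Real.sqrt_nonneg _
  have hst : s * s = t := Real.mul_self_sqrt h0
  have hs1 : s < 1 := by
    by_contra hc
    push Not at hc
    nlinarith
  rw [← hst]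
  have hq : 0 ≤ 7 + 7 * s - 128 * s ^ 2 + 128 * s ^ 3 + 128 * s ^ 4 + 128 * s ^ 5 := by
    nlinarith [sq_nonneg (s - 36 / 100), mul_nonneg hs0 (sq_nonneg (s - 36 / 100)),
      mul_nonneg (mul_nonneg hs0 hs0) (sq_nonneg (s - 36 / 100)),
      mul_nonneg (mul_nonneg (mul_nonneg hs0 hs0) hs0) (sq_nonneg (s - 36 / 100))]
  have hp : 0 ≤ (1 - s) * (7 + 7 * s - 128 * s ^ 2 + 128 * s ^ 3 + 128 * s ^ 4 + 128 * s ^ 5) :=
    mul_nonneg (by linarith) hq
  nlinarith [hp]

lemma int_Icc_one {c : ℝ} (h0 : 0 ≤ c) (h1 : c < 1) :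
    ∫ y in Icc (0 : ℝ) 1, Set.indicator (Ici c) (fun _ => (1 : ℝ)) y = 1 - c := by
  rw [setIntegral_indicator measurableSet_Ici]
  have e : Icc (0 : ℝ) 1 ∩ Ici c = Icc c 1 := by
    ext y
    simp only [mem_inter_iff, mem_Icc, mem_Ici]
    exact ⟨fun h => ⟨h.2, h.1.2⟩, fun h => ⟨⟨h0.trans h.1, h.2⟩, h.1⟩⟩
  rw [e, setIntegral_const, smul_eq_mul, mul_one, Measure.real, Real.volume_Icc,
    ENNReal.toReal_ofReal (by linarith)]

lemma int_Icc_sqrt {c : ℝ} (h0 : 0 ≤ c) (h1 : c < 1) :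
    ∫ y in Icc (0 : ℝ) 1, Set.indicator (Ici c) (fun _ => (1 : ℝ)) y * √y =
      2 / 3 * (1 - c * √c) := by
  have e1 : ∀ y, Set.indicator (Ici c) (fun _ => (1 : ℝ)) y * √y =
      Set.indicator (Ici c) (fun y => √y) y := by
    intro y
    rw [Set.indicator_apply, Set.indicator_apply]
    split_ifs <;> simp
  simp_rw [e1]
  rw [setIntegral_indicator measurableSet_Ici]
  have e : Icc (0 : ℝ) 1 ∩ Ici c = Icc c 1 := by
    ext y
    simp only [mem_inter_iff, mem_Icc, mem_Ici]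
    exact ⟨fun h => ⟨h.2, h.1.2⟩, fun h => ⟨⟨h0.trans h.1, h.2⟩, h.1⟩⟩
  rw [e, integral_Icc_eq_integral_Ioc, ← intervalIntegral.integral_of_le h1.le]
  simp_rw [Real.sqrt_eq_rpow]
  rw [integral_rpow (Or.inl (by norm_num))]
  have hc : c ^ ((1 : ℝ) / 2 + 1) = c * c ^ ((1 : ℝ) / 2) := by
    rcases h0.eq_or_lt with h | h
    · rw [← h]
      rw [Real.zero_rpow (by norm_num)]
      simp
    · rw [Real.rpow_add h, Real.rpow_one, mul_comm]
  rw [hc, Real.one_rpow]
  ring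

lemma ind_eq_prod {d : ℕ} (c y : Fin d → ℝ) :
    ind c y = ∏ i, Set.indicator (Ici (c i)) (fun _ => (1 : ℝ)) (y i) := by
  classical
  unfold ind
  rw [Set.indicator_apply]
  by_cases h : y ∈ Ici c
  · rw [if_pos h]
    symm
    refine Finset.prod_eq_one fun i _ => ?_
    rw [Set.indicator_apply, if_pos]
    exact h i
  · rw [if_neg h]
    symm
    have : ∃ i, ¬ c i ≤ y i := by
      by_contra hcon
      push Not at hcon
      exact h hcon
    obtain ⟨i, hi⟩ := this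
    refine Finset.prod_eq_zero (Finset.mem_univ i) ?_
    rw [Set.indicator_apply, if_neg]
    exact hi

lemma int_ind {d : ℕ} {c : Fin d → ℝ} (hc : ∀ i, c i ∈ Ico (0 : ℝ) 1) :
    ∫ x in Icc (0 : Fin d → ℝ) 1, ind c x = ∏ i, (1 - c i) := by
  simp_rw [ind_eq_prod]
  rw [vol_eq, integral_fintype_prod_eq_prod
    (fun i : Fin d => fun y : ℝ => Set.indicator (Ici (c i)) (fun _ => (1 : ℝ)) y)]
  exact Finset.prod_congr rfl fun i _ => int_Icc_one (hc i).1 (hc i).2

lemma sqrt_prod_eq {d : ℕ} {x : Fin d → ℝ} (hx : x ∈ Icc (0 : Fin d → ℝ) 1) :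
    √(∏ i, x i) = ∏ i, √(x i) := by
  rw [Real.sqrt_eq_rpow, ← Real.finsetProd_rpow _ _ (fun i _ => hx.1 i)]
  exact Finset.prod_congr rfl fun i _ => (Real.sqrt_eq_rpow _).symm

lemma int_ind_sqrt {d : ℕ} {c : Fin d → ℝ} (hc : ∀ i, c i ∈ Ico (0 : ℝ) 1) :
    ∫ x in Icc (0 : Fin d → ℝ) 1, ind c x * √(∏ i, x i) = ∏ i, (2 / 3 * (1 - c i * √(c i))) := by
  have h1 : ∫ x in Icc (0 : Fin d → ℝ) 1, ind c x * √(∏ i, x i) =
      ∫ x in Icc (0 : Fin d → ℝ) 1,
        ∏ i, (Set.indicator (Ici (c i)) (fun _ => (1 : ℝ)) (x i) * √(x i)) := by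
    refine setIntegral_congr_fun measurableSet_Icc fun x hx => ?_
    rw [sqrt_prod_eq hx, ind_eq_prod, ← Finset.prod_mul_distrib]
  rw [h1, vol_eq, integral_fintype_prod_eq_prod
    (fun i : Fin d => fun y : ℝ => Set.indicator (Ici (c i)) (fun _ => (1 : ℝ)) y * √y)]
  exact Finset.prod_congr rfl fun i _ => int_Icc_sqrt (hc i).1 (hc i).2

lemma int_P (d : ℕ) : ∫ x in Icc (0 : Fin d → ℝ) 1, ∏ i, x i = (1 / 2) ^ d := by
  rw [vol_eq, integral_fintype_prod_eq_prod (fun _ : Fin d => fun y : ℝ => y)]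
  have : ∫ y in Icc (0 : ℝ) 1, y = 1 / 2 := by
    rw [integral_Icc_eq_integral_Ioc, ← intervalIntegral.integral_of_le zero_le_one, integral_id]
    norm_num
  simp [this]

lemma ind_sqrt_int {d : ℕ} (c : Fin d → ℝ) : Integrable (fun x => ind c x * √(∏ i, x i))
    (volume.restrict (Icc (0 : Fin d → ℝ) 1)) := by
  refine Integrable.of_bound (C := 1) ?_ ?_
  · refine ((ind_meas c).mul ?_).aestronglyMeasurable
    exact (Finset.measurable_prod _ fun i _ => measurable_pi_apply i).sqrt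
  · refine (ae_restrict_mem measurableSet_Icc).mono fun x hx => ?_
    obtain ⟨h0, h1⟩ := prod_mem hx
    rw [Real.norm_eq_abs, abs_mul, abs_of_nonneg (ind_nonneg _ _),
      abs_of_nonneg (Real.sqrt_nonneg _)]
    refine mul_le_one₀ (ind_le_one _ _) (Real.sqrt_nonneg _) ?_
    exact Real.sqrt_le_one.2 h1

/-- The main estimate. -/
lemma main {N d : ℕ} {t : Fin N → Fin d → ℝ} {a : Fin N → ℝ}
    (ht : ∀ k i, t k i ∈ Ico (0 : ℝ) 1) (ha : ∀ k, 0 ≤ a k) {ε : ℝ} (hε : ε < 1)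
    (hE : ∫ x in Icc (0 : Fin d → ℝ) 1, |D t a x| ≤ ε * (1 / 2) ^ d) :
    (1 - ε) ^ 2 * (16 / 15) ^ d ≤ (1 + ε) * N := by
  classical
  set V : Fin N → ℝ := fun k => ∏ i, (1 - t k i) with hV
  set S : Fin N → ℝ := fun k => ∏ i, (2 / 3 * (1 - t k i * √(t k i))) with hS
  have hV0 : ∀ k, 0 ≤ V k := fun k => Finset.prod_nonneg fun i _ => by linarith [(ht k i).2]
  have hS0 : ∀ k, 0 ≤ S k := by
    intro k
    refine Finset.prod_nonneg fun i _ => ?_
    have h1 : √(t k i) ≤ 1 := Real.sqrt_le_one.2 (ht k i).2.le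
    have h2 := mul_le_one₀ (ht k i).2.le (Real.sqrt_nonneg (t k i)) h1
    linarith
  -- (1) the total mass
  have hmass : ∑ k, a k * V k ≤ (1 + ε) * (1 / 2) ^ d := by
    have h1 : ∫ x in Icc (0 : Fin d → ℝ) 1, D t a x = (1 / 2) ^ d - ∑ k, a k * V k := by
      unfold D
      rw [integral_sub (P_int d) (integrable_finsetSum _ fun k _ => (ind_int _).const_mul _),
        integral_finsetSum _ fun k _ => (ind_int _).const_mul _, int_P]
      simp_rw [integral_const_mul]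
      congr 1
      exact Finset.sum_congr rfl fun k _ => by rw [int_ind (ht k)]
    have h2 : -∫ x in Icc (0 : Fin d → ℝ) 1, D t a x ≤
        ∫ x in Icc (0 : Fin d → ℝ) 1, |D t a x| :=
      (neg_le_abs _).trans abs_integral_le_integral_abs
    rw [h1] at h2
    linarith
  -- (2) the lower bound
  have hlow : (1 / 2) ^ d - ∑ k, √(a k) * S k ≤ ∫ x in Icc (0 : Fin d → ℝ) 1, |D t a x| := by
    have h1 : (1 / 2) ^ d - ∑ k, √(a k) * S k = ∫ x in Icc (0 : Fin d → ℝ) 1,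
        ((∏ i, x i) - ∑ k, √(a k) * (ind (t k) x * √(∏ i, x i))) := by
      rw [integral_sub (P_int d) (integrable_finsetSum _ fun k _ => (ind_sqrt_int _).const_mul _),
        integral_finsetSum _ fun k _ => (ind_sqrt_int _).const_mul _, int_P]
      simp_rw [integral_const_mul]
      congr 1
      exact Finset.sum_congr rfl fun k _ => by rw [int_ind_sqrt (ht k)]
    rw [h1]
    refine setIntegral_mono_on ?_ (D_int t a).abs measurableSet_Icc ?_
    · exact (P_int d).sub (integrable_finsetSum _ fun k _ => (ind_sqrt_int _).const_mul _)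
    intro x hx
    have h2 := key (prod_mem hx).1 (fun k => a k * ind (t k) x)
      (fun k => mul_nonneg (ha k) (ind_nonneg _ _))
    refine le_trans (le_of_eq ?_) h2
    congr 1
    refine Finset.sum_congr rfl fun k _ => ?_
    rw [Real.sqrt_mul (ha k)]
    have h3 : √(ind (t k) x) = ind (t k) x := by
      unfold ind
      rw [Set.indicator_apply]
      split_ifs <;> simp
    rw [h3]
    ring
  -- (3) comparison of `S` and `V`
  have hSV : ∀ k, 2 ^ d * S k ^ 2 ≤ (15 / 16) ^ d * V k := by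
    intro k
    have e1 : 2 ^ d * S k ^ 2 = ∏ i, (2 * (2 / 3 * (1 - t k i * √(t k i))) ^ 2) := by
      rw [Finset.prod_mul_distrib, Finset.prod_pow]
      simp [hS]
    have e2 : (15 / 16) ^ d * V k = ∏ i, (15 / 16 * (1 - t k i)) := by
      rw [Finset.prod_mul_distrib, Finset.prod_const, Finset.card_univ, Fintype.card_fin]
    rw [e1, e2]
    exact Finset.prod_le_prod (fun i _ => by positivity) fun i _ => one_dim (ht k i).1 (ht k i).2
  -- (4) Cauchy-Schwarz
  have hCS : (∑ k, √(a k) * S k) ^ 2 ≤ N * ((15 / 32) ^ d * ∑ k, a k * V k) := by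
    have h1 := sq_sum_le_card_mul_sum_sq (s := (Finset.univ : Finset (Fin N)))
      (f := fun k => √(a k) * S k)
    rw [Finset.card_univ, Fintype.card_fin] at h1
    refine h1.trans (mul_le_mul_of_nonneg_left ?_ (Nat.cast_nonneg _))
    rw [Finset.mul_sum]
    refine Finset.sum_le_sum fun k _ => ?_
    rw [mul_pow, Real.sq_sqrt (ha k)]
    have h2 : S k ^ 2 ≤ (15 / 32) ^ d * V k := by
      have h3 := hSV k
      have h4 : (15 / 32 : ℝ) ^ d = (15 / 16) ^ d / 2 ^ d := by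
        rw [← div_pow]; norm_num
      rw [h4, div_mul_eq_mul_div, le_div_iff₀ (by positivity)]
      linarith
    calc a k * S k ^ 2 ≤ a k * ((15 / 32) ^ d * V k) := mul_le_mul_of_nonneg_left h2 (ha k)
      _ = _ := by ring
  -- (5) conclusion
  have h5 : (1 - ε) * (1 / 2) ^ d ≤ ∑ k, √(a k) * S k := by linarith
  have h6 : ((1 - ε) * (1 / 2) ^ d) ^ 2 ≤ N * ((15 / 32) ^ d * ((1 + ε) * (1 / 2) ^ d)) := by
    refine (pow_le_pow_left₀ (mul_nonneg (by linarith) (by positivity)) h5 2).trans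
      (hCS.trans ?_)
    refine mul_le_mul_of_nonneg_left ?_ (Nat.cast_nonneg _)
    exact mul_le_mul_of_nonneg_left hmass (by positivity)
  have h7 : (15 / 32 : ℝ) ^ d * (1 / 2) ^ d = (15 / 64) ^ d := by
    rw [← mul_pow]; norm_num
  have h8 : ((1 / 2 : ℝ) ^ d) ^ 2 = (16 / 15) ^ d * (15 / 64) ^ d := by
    rw [← pow_mul, mul_comm d 2, pow_mul, ← mul_pow]; norm_num
  have h9 : (1 - ε) ^ 2 * (16 / 15) ^ d * (15 / 64) ^ d ≤ (1 + ε) * N * (15 / 64) ^ d := by
    calc (1 - ε) ^ 2 * (16 / 15) ^ d * (15 / 64) ^ d = ((1 - ε) * (1 / 2) ^ d) ^ 2 := by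
          rw [mul_pow, h8]; ring
      _ ≤ N * ((15 / 32) ^ d * ((1 + ε) * (1 / 2) ^ d)) := h6
      _ = (1 + ε) * N * ((15 / 32) ^ d * (1 / 2) ^ d) := by ring
      _ = _ := by rw [h7]
  exact le_of_mul_le_mul_right h9 (by positivity)

/-- The lower bound for the number of nodes. -/
lemma bound {N d : ℕ} {ε : ℝ} (hε0 : 0 < ε) (hε : ε < 1)
    (h : ePlus N d ≤ ENNReal.ofReal (ε * (1 / 2) ^ d)) :
    (1 - ε) ^ 2 / (1 + ε) * (16 / 15) ^ d ≤ N := by
  have hd : (0 : ℝ) < (1 / 2) ^ d := by positivity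
  have h1 : ∀ δ : ℝ, ε < δ → δ < 1 → (1 - δ) ^ 2 * (16 / 15) ^ d ≤ (1 + δ) * N := by
    intro δ hδ hδ1
    have h2 : ePlus N d < ENNReal.ofReal (δ * (1 / 2) ^ d) := by
      refine h.trans_lt ((ENNReal.ofReal_lt_ofReal_iff (by nlinarith)).2 ?_)
      exact mul_lt_mul_of_pos_right hδ hd
    unfold ePlus at h2
    simp only [iInf_lt_iff] at h2
    obtain ⟨t, a, ht, ha, h3⟩ := h2
    rw [err_eq ht, ENNReal.ofReal_lt_ofReal_iff (by nlinarith)] at h3
    exact main ht ha hδ1 h3.le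
  have h4 : (1 - ε) ^ 2 * (16 / 15) ^ d ≤ (1 + ε) * N := by
    have hl1 : Tendsto (fun δ : ℝ => (1 - δ) ^ 2 * (16 / 15 : ℝ) ^ d) (nhdsWithin ε (Ioi ε))
        (nhds ((1 - ε) ^ 2 * (16 / 15) ^ d)) := by
      have : Continuous (fun δ : ℝ => (1 - δ) ^ 2 * (16 / 15 : ℝ) ^ d) := by fun_prop
      exact this.continuousAt.tendsto.mono_left nhdsWithin_le_nhds
    have hl2 : Tendsto (fun δ : ℝ => (1 + δ) * (N : ℝ)) (nhdsWithin ε (Ioi ε))
        (nhds ((1 + ε) * N)) := by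
      have : Continuous (fun δ : ℝ => (1 + δ) * (N : ℝ)) := by fun_prop
      exact this.continuousAt.tendsto.mono_left nhdsWithin_le_nhds
    refine le_of_tendsto_of_tendsto hl1 hl2 ?_
    filter_upwards [Ioo_mem_nhdsGT hε] with δ hδ
    exact h1 δ hδ.1 hδ.2
  rw [div_mul_eq_mul_div, div_le_iff₀ (by linarith)]
  linarith

lemma le_NPlus {d : ℕ} {ε c : ℝ} (hc : ∀ N : ℕ, ePlus N d ≤ ENNReal.ofReal (ε * (1 / 2) ^ d) →
    c ≤ N) : ENNReal.ofReal c ≤ (NPlus ε d : ℝ≥0∞) := by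
  unfold NPlus
  by_cases hne : ∃ N : ℕ, ePlus N d ≤ ENNReal.ofReal (ε * (1 / 2) ^ d)
  · have h1 : ∃ N : ℕ, ePlus N d ≤ ENNReal.ofReal (ε * (1 / 2) ^ d) ∧
        (⨅ (N : ℕ) (_ : ePlus N d ≤ ENNReal.ofReal (ε * (1 / 2) ^ d)), (N : ℕ∞)) = (N : ℕ∞) := by
      classical
      refine ⟨Nat.find hne, Nat.find_spec hne, le_antisymm ?_ ?_⟩
      · exact iInf₂_le (α := ℕ∞) (Nat.find hne) (Nat.find_spec hne)
      · refine le_iInf₂ fun N hN => ?_
        exact_mod_cast Nat.find_min' hne hN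
    obtain ⟨N, hN, hNeq⟩ := h1
    rw [hNeq, ENat.toENNReal_coe]
    rw [← ENNReal.ofReal_natCast]
    exact ENNReal.ofReal_le_ofReal (hc N hN)
  · push Not at hne
    have h1 : (⨅ (N : ℕ) (_ : ePlus N d ≤ ENNReal.ofReal (ε * (1 / 2) ^ d)), (N : ℕ∞)) = ⊤ := by
      refine eq_top_iff.2 (le_iInf₂ fun N hN => ?_)
      exact absurd hN (not_le.2 (hne N))
    rw [h1, ENat.toENNReal_top]
    exact le_top

lemma asymp {ε : ℝ} (hε0 : 0 < ε) (hε : ε < 1) {C : ℝ} (hC0 : 0 ≤ C) (hC : C < 16 / 15) :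
    ∀ᶠ d : ℕ in atTop, ENNReal.ofReal (C ^ d) ≤ (NPlus ε d : ℝ≥0∞) := by
  have hlim : Tendsto (fun d : ℕ => (C / (16 / 15)) ^ d) atTop (nhds 0) :=
    tendsto_pow_atTop_nhds_zero_of_lt_one (by positivity) (by rw [div_lt_one (by norm_num)]; exact hC)
  have hpos : 0 < (1 - ε) ^ 2 / (1 + ε) := by
    have : 0 < 1 - ε := by linarith
    positivity
  filter_upwards [hlim.eventually_le_const hpos] with d hd
  refine le_NPlus fun N hN => ?_
  refine le_trans ?_ (bound hε0 hε hN)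
  rw [div_pow, div_le_iff₀ (by positivity)] at hd
  exact hd

lemma ePlus_zero (d : ℕ) : ePlus 0 d = ENNReal.ofReal ((1 / 2) ^ d) := by
  have h : ∀ (t : Fin 0 → Fin d → ℝ) (a : Fin 0 → ℝ), err t a = ENNReal.ofReal ((1 / 2) ^ d) := by
    intro t a
    rw [err_eq (fun k => k.elim0)]
    congr 1
    rw [← int_P]
    refine setIntegral_congr_fun measurableSet_Icc fun x hx => ?_
    simp only [D, Finset.univ_eq_empty, Finset.sum_empty, sub_zero]
    exact abs_of_nonneg (prod_mem hx).1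
  unfold ePlus
  refine le_antisymm ?_ ?_
  · exact iInf_le_of_le (fun k => k.elim0) (iInf_le_of_le (fun k => k.elim0)
      (iInf_le_of_le (fun k => k.elim0) (iInf_le_of_le (fun k => k.elim0) (h _ _).le)))
  · exact le_iInf fun t => le_iInf fun a => le_iInf fun _ => le_iInf fun _ => (h t a).ge

/-- **Integration on `F_{d,∞}` (the case `p = 1`) with nonnegative quadrature formulas suffers from
the curse of dimensionality.**

* the worst case error is the generalised `L_1`-discrepancy, and the initial error is `2^{-d}`;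
* if some nonnegative formulas with `N` nodes have worst case errors with infimum at most
  `ε 2^{-d}`, then `N ≥ (1-ε)²/(1+ε) (16/15)^d`, for all `ε ∈ (0,1)`, all `N` and all `d`;
* for every `ε ∈ (0,1)` and every `C < 16/15` one has `N⁺(ε,d) ≥ C^d` for all large `d`;
* in particular there are `ε > 0` and `C > 1` with `N⁺(ε,d) ≥ C^d` for infinitely many `d`. -/
theorem result :
    (∀ (N d : ℕ) (t : Fin N → Fin d → ℝ) (a : Fin N → ℝ), (∀ k i, t k i ∈ Ico (0 : ℝ) 1) →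
      err t a = ENNReal.ofReal (genDisc t a)) ∧
    (∀ d : ℕ, ePlus 0 d = ENNReal.ofReal ((1 / 2) ^ d)) ∧
    (∀ ε : ℝ, 0 < ε → ε < 1 → ∀ N d : ℕ, ePlus N d ≤ ENNReal.ofReal (ε * (1 / 2) ^ d) →
      (1 - ε) ^ 2 / (1 + ε) * (16 / 15) ^ d ≤ (N : ℝ)) ∧
    (∀ ε : ℝ, 0 < ε → ε < 1 → ∀ C : ℝ, 0 ≤ C → C < 16 / 15 →
      ∀ᶠ d : ℕ in atTop, ENNReal.ofReal (C ^ d) ≤ (NPlus ε d : ℝ≥0∞)) ∧
    (∃ ε : ℝ, 0 < ε ∧ ∃ C : ℝ, 1 < C ∧
      {d : ℕ | ENNReal.ofReal (C ^ d) ≤ (NPlus ε d : ℝ≥0∞)}.Infinite) := by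
  refine ⟨fun N d t a ht => ?_, ePlus_zero, fun ε h0 h1 N d h => bound h0 h1 h,
    fun ε h0 h1 C hC0 hC => asymp h0 h1 hC0 hC, 1 / 2, by norm_num, 17 / 16, by norm_num, ?_⟩
  · rw [err_eq ht, genDisc_eq]
  · have h := asymp (ε := 1 / 2) (by norm_num) (by norm_num) (C := 17 / 16) (by norm_num)
      (by norm_num)
    exact Nat.frequently_atTop_iff_infinite.1 h.frequently

end Pool.Agent.Results.MP_2335a4_an.Curse
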